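import Mathlib
import Pool.Graph.R_seed8.W830.RD.Stm
import Pool.Graph.R_seed8.W657.RD.PBas
import Pool.Agent.H958.RO.Stm

set_option autoImplicit false

namespace Pool.Agent.H92.RO.Ubs

open Finset
open scoped Classical
open Pool.Agent.W830.RD (Om gle Pr Rlz S_PBAS)
open Pool.Agent.H958.RO

lemma res_sub {n : ℕ} (E : Finset (Fin n × Fin n)) (S : Finset (Fin n)) : res E S ⊆ E :=
  Finset.filter_subset _ _

lemma res_res {n : ℕ} (E : Finset (Fin n × Fin n)) (S : Finset (Fin n)) :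
    res (res E S) S = res E S := by
  unfold res
  rw [Finset.filter_filter]
  congr 1
  ext e
  simp

lemma kin_res {n : ℕ} (E : Finset (Fin n × Fin n)) (bl : Fin n → ℕ) (S : Finset (Fin n)) (k : ℕ)
    (h : KIn E bl S k) : KIn (res E S) bl S k := by
  obtain ⟨lab, hlab⟩ := h
  refine ⟨lab, fun a ha b hb hab => ?_⟩
  have := hlab a ha b hb hab
  unfold Near at this ⊢
  rw [res_res]
  exact this

lemma res_card_le {n : ℕ} (E : Finset (Fin n × Fin n)) (S : Finset (Fin n)) :
    (res E S).card ≤ S.card ^ 2 := by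
  have h1 : res E S ⊆ S ×ˢ S := by
    intro e he
    unfold res at he
    rw [Finset.mem_filter] at he
    exact Finset.mem_product.mpr he.2
  have := Finset.card_le_card h1
  rw [Finset.card_product] at this
  rw [sq]
  exact this

theorem main (h : S_PSUB) : S_UBS := by
  intro p n T C κ hp0 hp1
  obtain ⟨-, -, hmono, -, -, hun⟩ := Pool.Agent.W657.RD.PBas.main p n hp0 hp1
  have step1 : Pr p n (fun E => ¬ Star T C κ E) ≤
      Pr p n (fun E => ∃ v ∈ (Icc 1 n).filter (fun v : ℕ => (v : ℝ) ≤ κ * n),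
        ∃ x ∈ Icc 1 (v ^ 2), ∃ q ∈ cfg n T v x (C * x), q.2 ⊆ E) := by
    apply hmono
    intro E hE hst
    unfold Pool.Agent.H958.RO.Star at hst
    push Not at hst
    obtain ⟨S, hS, hSc, x, hx, hcard, hK⟩ := hst
    refine ⟨S.card, ?_, x, ?_, (S, res E S), ?_, res_sub E S⟩
    · rw [Finset.mem_filter, Finset.mem_Icc]
      refine ⟨⟨hS.card_pos, ?_⟩, hSc⟩
      have := Finset.card_le_univ S
      rwa [Fintype.card_fin] at this
    · rw [Finset.mem_Icc]
      refine ⟨hx, ?_⟩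
      have := res_card_le E S
      omega
    · unfold cfg
      rw [Finset.mem_filter]
      refine ⟨Finset.mem_univ _, rfl, (res_sub E S).trans hE, ?_, hcard, kin_res E _ S _ hK⟩
      intro e he
      have he' : e ∈ E.filter (fun e => e.1 ∈ S ∧ e.2 ∈ S) := he
      rw [Finset.mem_filter] at he'
      exact he'.2
  refine step1.trans ?_
  refine (hun ℕ _ (fun v E => ∃ x ∈ Icc 1 (v ^ 2), ∃ q ∈ cfg n T v x (C * x), q.2 ⊆ E)).trans ?_
  apply Finset.sum_le_sum
  intro v _
  refine (hun ℕ _ (fun x E => ∃ q ∈ cfg n T v x (C * x), q.2 ⊆ E)).trans ?_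
  apply Finset.sum_le_sum
  intro x _
  refine (hun _ _ (fun (q : Finset (Fin n) × Finset (Fin n × Fin n)) E => q.2 ⊆ E)).trans ?_
  have : ∑ q ∈ cfg n T v x (C * x), Pr p n (fun E => q.2 ⊆ E) =
      ∑ q ∈ cfg n T v x (C * x), p ^ (v + x) := by
    apply Finset.sum_congr rfl
    intro q hq
    unfold cfg at hq
    rw [Finset.mem_filter] at hq
    obtain ⟨-, -, hq1, -, hq2, -⟩ := hq
    rw [h p n q.2 hp0 hp1 hq1, hq2]
  rw [this, Finset.sum_const, nsmul_eq_mul]

end Pool.Agent.H92.RO.Ubs
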